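import Pool.Agent.L7h20.NF.Stm
import Pool.Agent.Y170.NA.Pre

/-!
# Project NF: a point which is not good lies in a leafy set
-/

set_option autoImplicit false

open Set Filter Topology Metric Function
open scoped Manifold ContDiff

noncomputable section

namespace Pool.Agent.L7h13.NF

open Pool.Agent.Y522 Pool.Agent.L7h20.NF

section basics

variable {m : ℕ} {X : Type} [TopologicalSpace X] [ChartedSpace (E (m + 1)) X]

/-- the derivative at a point as a map between Euclidean spaces -/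
def DF (F : X → E (m + 1)) (x : X) : E (m + 1) →L[ℝ] E (m + 1) :=
  mfderiv (𝓡 (m + 1)) (𝓡 (m + 1)) F x

variable [IsManifold (𝓡 (m + 1)) ∞ X]

/-- the derivative in coordinates -/
theorem dF_eq (F : X → E (m + 1)) (hF : Sm F) (A : E (m + 1) → X)
    (L : E (m + 1) ≃L[ℝ] E (m + 1)) (z : E (m + 1)) (hA : LD (m + 1) A z) :
    ∃ B : E (m + 1) ≃L[ℝ] E (m + 1), ∀ v, dF F A L z v = L (DF F (A z) (B v)) := by
  let B : E (m + 1) ≃L[ℝ] E (m + 1) := hA.mfderivToContinuousLinearEquiv (by simp)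
  have hB : (B : E (m + 1) →L[ℝ] E (m + 1)) = mfderiv (𝓡 (m + 1)) (𝓡 (m + 1)) A z :=
    hA.mfderivToContinuousLinearEquiv_coe (by simp)
  refine ⟨B, fun v => ?_⟩
  have hFd : MDifferentiableAt (𝓡 (m + 1)) (𝓡 (m + 1)) F (A z) :=
    hF.mdifferentiableAt (by simp)
  have h1 : mfderiv (𝓡 (m + 1)) (𝓡 (m + 1)) (fun w => F (A w)) z =
      (mfderiv (𝓡 (m + 1)) (𝓡 (m + 1)) F (A z)).comp
        (mfderiv (𝓡 (m + 1)) (𝓡 (m + 1)) A z) :=
    mfderiv_comp z hFd hA.mdifferentiableAt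
  have h0 : MDifferentiableAt (𝓡 (m + 1)) (𝓡 (m + 1)) (fun w => F (A w)) z :=
    hFd.comp z hA.mdifferentiableAt
  have h2 : DifferentiableAt ℝ (fun w => F (A w)) z :=
    mdifferentiableAt_iff_differentiableAt.1 h0
  have h3 : HasFDerivAt (fun w => L (F (A w)))
      ((L : E (m + 1) →L[ℝ] E (m + 1)).comp (fderiv ℝ (fun w => F (A w)) z)) z :=
    L.hasFDerivAt.comp z h2.hasFDerivAt
  unfold dF
  rw [h3.fderiv]
  have h4 : fderiv ℝ (fun w => F (A w)) z =
      (DF F (A z)).comp (B : E (m + 1) →L[ℝ] E (m + 1)) := by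
    rw [hB, ← mfderiv_eq_fderiv]
    exact h1
  rw [h4]
  rfl

theorem sub_iff (P : E (m + 1) →L[ℝ] E m) (F : X → E (m + 1)) (hF : Sm F) (x : X)
    (h : ∀ y, ∃ v, P (DF F x v) = y) : Sub P F x := by
  have hFd : MDifferentiableAt (𝓡 (m + 1)) (𝓡 (m + 1)) F x :=
    hF.mdifferentiableAt (by simp)
  have hP : MDifferentiableAt (𝓡 (m + 1)) (𝓡 m) (P : E (m + 1) → E m) (F x) :=
    mdifferentiableAt_iff_differentiableAt.2 P.differentiableAt
  have h1 : mfderiv (𝓡 (m + 1)) (𝓡 m) (fun y => P (F y)) x =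
      (mfderiv (𝓡 (m + 1)) (𝓡 m) (P : E (m + 1) → E m) (F x)).comp
        (mfderiv (𝓡 (m + 1)) (𝓡 (m + 1)) F x) :=
    mfderiv_comp x hP hFd
  have h2 : mfderiv (𝓡 (m + 1)) (𝓡 m) (P : E (m + 1) → E m) (F x) = P := by
    rw [mfderiv_eq_fderiv]
    exact P.fderiv
  intro y
  obtain ⟨v, hv⟩ := h y
  refine ⟨v, ?_⟩
  rw [h1, h2]
  exact hv

end basics

/-- one dimensional: if the derivative of `g` along the segment vanishes then `g` is constant -/
theorem const_seg {n : ℕ} (g : ℝ → E n) (h : ∀ t : ℝ, |t| ≤ 1 → HasDerivAt g 0 t) (t : ℝ)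
    (ht : |t| ≤ 1) : g t = g 0 := by
  have h1 : ∀ s ∈ Icc (-1 : ℝ) 1, HasDerivWithinAt g 0 (Icc (-1 : ℝ) 1) s := fun s hs =>
    (h s (abs_le.2 hs)).hasDerivWithinAt
  have h2 := (convex_Icc (-1 : ℝ) 1).norm_image_sub_le_of_norm_hasDerivWithin_le (C := 0) h1
    (fun s _ => by simp) (show (0 : ℝ) ∈ Icc (-1 : ℝ) 1 by constructor <;> norm_num)
    (show t ∈ Icc (-1 : ℝ) 1 from abs_le.1 ht)
  rw [zero_mul] at h2
  have h3 := norm_le_zero_iff.1 h2
  exact sub_eq_zero.1 h3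

/-- along a singular leaf `F` and its derivative are constant -/
theorem leaf_eq (hBXJ : S_BXJ) (hREG : S_REG) (m : ℕ) (X : Type) [TopologicalSpace X]
    [ChartedSpace (E (m + 1)) X] [IsManifold (𝓡 (m + 1)) ∞ X] (F : X → E (m + 1))
    (P : E (m + 1) →L[ℝ] E m) (A : E (m + 1) → X) (L : E (m + 1) ≃L[ℝ] E (m + 1)) (b : E m)
    (hF : Sm F) (hB : Bx F P A L b) (hj : ∀ t : ℝ, |t| ≤ 1 → jac F A L (t • e0) = 0) (t : ℝ)
    (ht : |t| ≤ 1) :
    F (A (t • e0)) = F (A 0) ∧ ∀ v, dF F A L (t • e0) v = dF F A L 0 v := by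
  obtain ⟨-, hx2, hx3, hx4, -⟩ := hBXJ m X F P A L b hF hB
  have he0 : (e0 : E (m + 1)) 0 = 1 := rfl
  have htl0 : tl (e0 : E (m + 1)) = 0 := by simp [e0]
  have hbox : ∀ t : ℝ, |t| ≤ 1 → (t • e0 : E (m + 1)) ∈ box m 1 1 := by
    intro t ht
    refine ⟨?_, ?_⟩
    · rw [map_smul, htl0, smul_zero, norm_zero]
      exact zero_le_one
    · simpa [he0] using ht
  -- the derivative in the direction of the leaf vanishes
  have hz : ∀ t : ℝ, |t| ≤ 1 → dF F A L (t • e0) e0 = 0 := by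
    intro t ht
    have h1 := hx2 _ (hbox t ht) e0
    have h2 := hx3 _ (hbox t ht)
    rw [hj t ht] at h2
    rw [← cn_tl (dF F A L (t • e0) e0), h1, htl0, ← h2, cn_eq]
    rw [zero_smul, zero_add, ← inc_apply, map_zero]
  have hdf : ∀ t : ℝ, |t| ≤ 1 →
      HasFDerivAt (fun w => L (F (A w))) (dF F A L (t • e0)) (t • e0) := by
    intro t ht
    obtain ⟨-, h2, -⟩ := hREG m X F A L (t • e0) hF (hB.ld _ (hbox t ht))
    have h3 := h2.self_of_nhds
    have h4 : DifferentiableAt ℝ (fun w => L (F (A w))) (t • e0) :=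
      L.differentiableAt.comp _ (h3.differentiableAt (by simp))
    exact h4.hasFDerivAt
  have hline : ∀ t : ℝ, |t| ≤ 1 → HasDerivAt (fun t : ℝ => L (F (A (t • e0)))) 0 t := by
    intro t ht
    have h1 : HasDerivAt (fun t : ℝ => t • (e0 : E (m + 1))) e0 t := by
      simpa using (hasDerivAt_id t).smul_const (e0 : E (m + 1))
    have h2 := (hdf t ht).comp_hasDerivAt t h1
    rw [hz t ht] at h2
    exact h2
  have hcst : ∀ t : ℝ, |t| ≤ 1 → L (F (A (t • e0))) = L (F (A 0)) := by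
    intro t ht
    have h1 := const_seg (fun t : ℝ => L (F (A (t • e0)))) hline t ht
    simpa using h1
  refine ⟨L.injective (hcst t ht), fun v => ?_⟩
  -- the function of the tail
  have hcn : ∀ t : ℝ, ∀ y : E m, cn t y = t • e0 + inc y := fun t y => by rw [cn_eq, inc_apply]
  have hdc : ∀ t : ℝ, |t| ≤ 1 → HasFDerivAt (fun y : E m => L (F (A (cn t y))))
      ((dF F A L (t • e0)).comp inc) 0 := by
    intro t ht
    have h1 : HasFDerivAt (fun y : E m => cn t y) (inc : E m →L[ℝ] E (m + 1)) 0 := by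
      have : (fun y : E m => cn t y) = fun y => t • e0 + inc y := by
        funext y
        rw [hcn]
      rw [this]
      exact (inc.hasFDerivAt).const_add _
    have h2 : cn t (0 : E m) = t • e0 := by rw [hcn, map_zero, add_zero]
    have h3 : HasFDerivAt (fun w => L (F (A w))) (dF F A L (t • e0)) (cn t (0 : E m)) := by
      rw [h2]
      exact hdf t ht
    exact h3.comp (0 : E m) h1
  have hpr : ∀ t : ℝ, |t| ≤ 1 → HasFDerivAt (fun y : E m => (L (F (A (cn t y)))) 0)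
      ((EuclideanSpace.proj (0 : Fin (m + 1)) : E (m + 1) →L[ℝ] ℝ).comp
        ((dF F A L (t • e0)).comp inc)) 0 := fun t ht =>
    (EuclideanSpace.proj (0 : Fin (m + 1)) : E (m + 1) →L[ℝ] ℝ).hasFDerivAt.comp (0 : E m)
      (hdc t ht)
  have h01 : |(0 : ℝ)| ≤ 1 := by simp
  have hsub := (hpr t ht).sub (hpr 0 h01)
  have hval : (L (F (A (cn t (0 : E m))))) 0 - (L (F (A (cn 0 (0 : E m))))) 0 = 0 := by
    rw [hcn, hcn, map_zero, add_zero, add_zero, hcst t ht, zero_smul, sub_self]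
  have hball : ∀ᶠ y : E m in 𝓝 0, ‖y‖ ≤ 1 := by
    filter_upwards [Metric.closedBall_mem_nhds (0 : E m) one_pos] with y hy
    simpa using hy
  have hin : ∀ t : ℝ, |t| ≤ 1 → ∀ y : E m, ‖y‖ ≤ 1 → cn t y ∈ box m 1 1 := by
    intro t ht y hy
    refine ⟨by simpa using hy, by simpa using ht⟩
  have hcrit : (EuclideanSpace.proj (0 : Fin (m + 1)) : E (m + 1) →L[ℝ] ℝ).comp
        ((dF F A L (t • e0)).comp inc) -
      (EuclideanSpace.proj (0 : Fin (m + 1)) : E (m + 1) →L[ℝ] ℝ).comp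
        ((dF F A L ((0 : ℝ) • e0)).comp inc) = 0 := by
    rcases le_total 0 t with h0 | h0
    · refine IsLocalMin.hasFDerivAt_eq_zero ?_ hsub
      filter_upwards [hball] with y hy
      have := hx4 _ (hin 0 h01 y hy) _ (hin t ht y hy) (by simp) (by simpa using h0)
      simp only [Pi.sub_apply]
      rw [hval]
      linarith
    · refine IsLocalMax.hasFDerivAt_eq_zero ?_ hsub
      filter_upwards [hball] with y hy
      have := hx4 _ (hin t ht y hy) _ (hin 0 h01 y hy) (by simp) (by simpa using h0)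
      simp only [Pi.sub_apply]
      rw [hval]
      linarith
  have hv : v = (v 0) • e0 + inc (tl v) := by
    rw [← hcn, cn_tl]
  have hb0 : (0 : E (m + 1)) ∈ box m 1 1 := by
    have := hbox 0 h01
    rwa [zero_smul] at this
  have hz0 : dF F A L 0 e0 = 0 := by
    have := hz 0 h01
    rwa [zero_smul] at this
  have h1 : dF F A L (t • e0) v = dF F A L (t • e0) (inc (tl v)) := by
    conv_lhs => rw [hv, map_add, map_smul, hz t ht, smul_zero, zero_add]
  have h2 : dF F A L 0 v = dF F A L 0 (inc (tl v)) := by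
    conv_lhs => rw [hv, map_add, map_smul, hz0, smul_zero, zero_add]
  rw [h1, h2, ← cn_tl (dF F A L (t • e0) (inc (tl v))), ← cn_tl (dF F A L 0 (inc (tl v))),
    hx2 _ (hbox t ht), hx2 _ hb0]
  have h3 := congrArg (fun f : E m →L[ℝ] ℝ => f (tl v)) hcrit
  simp only [zero_smul] at h3
  have h4 : (dF F A L (t • e0) (inc (tl v))) 0 - (dF F A L 0 (inc (tl v))) 0 = 0 := h3
  rw [sub_eq_zero.1 h4]

/-- propagation of goodness along a leaf -/
theorem prop_good (hPROP : S_PROP) (m : ℕ) (X : Type) [TopologicalSpace X] [T2Space X]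
    [ChartedSpace (E (m + 1)) X] [IsManifold (𝓡 (m + 1)) ∞ X] (F : X → E (m + 1))
    (P : E (m + 1) →L[ℝ] E m) (A : E (m + 1) → X) (L : E (m + 1) ≃L[ℝ] E (m + 1)) (b : E m)
    (hF : Setting F) (hB : Bx F P A L b) (hc : IsClosed {x | ¬ LD (m + 1) F x})
    (h0 : ¬ LD (m + 1) F (A 0)) (V : X → E (m + 1)) (hV : Sm V) (hVc : HasCompactSupport V)
    (hNN : ∀ y, ¬ LD (m + 1) F y → NN F V y) (N : Set X) (hN : IsOpen N)
    (hp : ∀ y, ¬ LD (m + 1) F y → y ∈ N → Pos F V y) (t : ℝ) (ht0 : t ≠ 0) (ht : |t| < 1)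
    (hA : A (t • e0) ∈ N) : A 0 ∈ Gd F := by
  obtain ⟨C, σ, hC, hσ, hσc, h1, h2⟩ := hPROP m X F P A L b {x | ¬ LD (m + 1) F x} N V t hF hB hc
    h0 hV hNN hN hp ht0 ht hA
  refine ⟨fun y => C • V y + σ y • L.symm e0, ?_, ?_, h1, h2⟩
  · have a1 : ContMDiff (𝓡 (m + 1)) (𝓡 (m + 1)) ∞ (fun y => C • V y) := by
      have := (contMDiff_const (c := C) (I := 𝓡 (m + 1)) (I' := 𝓘(ℝ, ℝ)) (n := ∞) (M := X)).smul hV
      exact this
    have a2 : ContMDiff (𝓡 (m + 1)) (𝓡 (m + 1)) ∞ (fun y => σ y • L.symm e0) :=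
      hσ.smul contMDiff_const
    exact a1.add a2
  · have a1 : HasCompactSupport (fun y => C • V y) := hVc.smul_left (f := fun _ => C)
    have a2 : HasCompactSupport (fun y => σ y • L.symm (e0 : E (m + 1))) :=
      hσc.smul_right (f' := fun _ => L.symm (e0 : E (m + 1)))
    exact a1.add a2

theorem s_LEAF (hPROP : S_PROP) (hBOX : S_BOX) (hBXJ : S_BXJ) (hCONE : S_CONE) (hREG : S_REG) :
    S_LEAF := by
  intro m X _ _ _ _ F x hF hc hr hx hg
  classical
  have hsm := hF.smooth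
  obtain ⟨-, -, -, -, c5, -, c7, -, -⟩ := hCONE m X F hF
  -- the singular set is closed and the set of the good points is open
  have hcl : IsClosed {x | ¬ LD (m + 1) F x} := by
    rw [← isOpen_compl_iff, isOpen_iff_mem_nhds]
    intro y hy
    have hy' : LD (m + 1) F y := not_not.1 hy
    filter_upwards [hy'.eventually] with w hw using not_not.2 hw
  have hgo : IsOpen (Gd F) := by
    rw [isOpen_iff_mem_nhds]
    rintro y ⟨V, h1, h2, h3, h4⟩
    filter_upwards [(c5 V h1).mem_nhds h4] with w hw using ⟨V, h1, h2, h3, hw⟩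
  -- the derivative at `x` is not onto
  have hns : ¬ Surjective (DF F x) := by
    intro hs
    obtain ⟨A, L, z, hz, hco⟩ := hF.sign x
    obtain ⟨h1, -, -⟩ := hREG m X F A L z hsm hco.ld
    apply hx
    rw [← hz, h1]
    obtain ⟨B, hB⟩ := dF_eq F hsm A L z hco.ld
    have h2 : Surjective (dF F A L z) := by
      intro y
      obtain ⟨v, hv⟩ := hs (L.symm y)
      refine ⟨B.symm v, ?_⟩
      rw [hB, hz, B.apply_symm_apply, hv, L.apply_symm_apply]
    have h3 : IsUnit ((dF F A L z : E (m + 1) →L[ℝ] E (m + 1)) : E (m + 1) →ₗ[ℝ] E (m + 1)) :=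
      (LinearMap.isUnit_iff_range_eq_top _).2 (LinearMap.range_eq_top.2 h2)
    exact ((LinearMap.isUnit_iff_isUnit_det _).1 h3).ne_zero
  set W : Submodule ℝ (E (m + 1)) := LinearMap.range (DF F x).toLinearMap with hW
  have hWm : m ≤ Module.finrank ℝ W := hr x hx
  have hWt : W ≠ ⊤ := by
    intro h
    apply hns
    intro y
    have : y ∈ W := by rw [h]; trivial
    obtain ⟨v, hv⟩ := this
    exact ⟨v, hv⟩
  obtain ⟨l, hl0, hl⟩ := Submodule.exists_le_ker_of_lt_top W (lt_top_iff_ne_top.2 hWt)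
  obtain ⟨P, hP⟩ := Pool.Agent.Y170.NA.exists_proj W hWm
  have hkl : Module.finrank ℝ (LinearMap.ker l) ≤ m := by
    have h := LinearMap.finrank_range_add_finrank_ker l
    rw [LinearMap.range_eq_top.2 (LinearMap.surjective hl0), finrank_top, Module.finrank_self,
      finrank_euclideanSpace, Fintype.card_fin] at h
    omega
  have hWk : W = LinearMap.ker l := Submodule.eq_of_le_of_finrank_le hl (hkl.trans hWm)
  have hrange : ∀ q, ¬ LD (m + 1) F q → (∀ v, l (DF F q v) = 0) → ∀ w ∈ W, ∃ v, DF F q v = w := by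
    intro q hq hlq w hw
    have h1 : LinearMap.range (DF F q).toLinearMap ≤ LinearMap.ker l := by
      rintro _ ⟨v, rfl⟩
      exact hlq v
    have h2 : LinearMap.range (DF F q).toLinearMap = LinearMap.ker l :=
      Submodule.eq_of_le_of_finrank_le h1 (hkl.trans (hr q hq))
    rw [hWk, ← h2] at hw
    obtain ⟨v, hv⟩ := hw
    exact ⟨v, hv⟩
  set K : Set X := {q | (¬ LD (m + 1) F q ∧ q ∉ Gd F) ∧ F q = F x ∧ ∀ v, l (DF F q v) = 0} with hK
  have hsub : ∀ q ∈ K, Sub P F q := by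
    intro q hq
    refine sub_iff P F hsm q fun y => ?_
    obtain ⟨w, hw, hwy⟩ := hP y
    obtain ⟨v, hv⟩ := hrange q hq.1.1 hq.2.2 w hw
    exact ⟨v, by rw [hv, hwy]⟩
  have hcl2 : IsClosed {q | ∀ v, l (DF F q v) = 0} := by
    rw [← isOpen_compl_iff, isOpen_iff_mem_nhds]
    intro q hq
    have hq' : ¬ ∀ v, l (DF F q v) = 0 := hq
    push Not at hq'
    obtain ⟨v, hv⟩ := hq'
    obtain ⟨A, L, z, hz, hco⟩ := hF.sign q
    obtain ⟨B, hB⟩ := dF_eq F hsm A L z hco.ld
    obtain ⟨-, -, h3⟩ := hREG m X F A L z hsm hco.ld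
    have h4 : ContinuousAt (fun w => (LinearMap.toContinuousLinearMap l)
        (L.symm (dF F A L w (B.symm v)))) z := by
      have h5 : ContinuousAt (fun w => dF F A L w (B.symm v)) z := h3.clm_apply continuousAt_const
      exact (LinearMap.toContinuousLinearMap l).continuous.continuousAt.comp
        (L.symm.continuous.continuousAt.comp h5)
    have h5 : (LinearMap.toContinuousLinearMap l) (L.symm (dF F A L z (B.symm v))) ≠ 0 := by
      rw [hB, L.symm_apply_apply, B.apply_symm_apply, hz]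
      exact hv
    have h6 : {w | (LinearMap.toContinuousLinearMap l) (L.symm (dF F A L w (B.symm v))) ≠ 0 ∧
        LD (m + 1) A w} ∈ 𝓝 z := (h4.eventually_ne h5).and hco.ld.eventually
    have h7 := hco.ld.image_mem_nhds h6
    rw [hz] at h7
    filter_upwards [h7] with y hy
    obtain ⟨w, ⟨hw1, hw2⟩, rfl⟩ := hy
    obtain ⟨B', hB'⟩ := dF_eq F hsm A L w hw2
    intro hcon
    apply hw1
    rw [hB', L.symm_apply_apply]
    exact hcon _
  have hKc : IsCompact K := by
    have h1 : K = {x | ¬ LD (m + 1) F x} ∩ ((Gd F)ᶜ ∩ ({q | F q = F x} ∩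
        {q | ∀ v, l (DF F q v) = 0})) := by
      ext q
      simp only [hK, mem_setOf_eq, mem_inter_iff, mem_compl_iff]
      tauto
    rw [h1]
    exact hc.inter_right (hgo.isClosed_compl.inter
      ((isClosed_eq hsm.continuous continuous_const).inter hcl2))
  refine ⟨P, K, ⟨⟨hx, hg⟩, rfl, fun v => hl ⟨v, rfl⟩⟩, ⟨hKc, ⟨P (F x), fun q hq => ?_⟩, ?_⟩, hsub⟩
  · rw [hq.2.1]
  intro q hq U hU
  obtain ⟨A, L, b, hA0, hB, hin⟩ := hBOX m X F hF P q (hsub q hq) U hU
  refine ⟨A, L, b, hA0, hB, hin, ?_⟩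
  have he0 : (e0 : E (m + 1)) 0 = 1 := rfl
  have htl0 : tl (e0 : E (m + 1)) = 0 := by simp [e0]
  have hbox : ∀ t : ℝ, |t| ≤ 1 → (t • e0 : E (m + 1)) ∈ box m 1 1 := by
    intro t ht
    refine ⟨?_, ?_⟩
    · rw [map_smul, htl0, smul_zero, norm_zero]
      exact zero_le_one
    · simpa [he0] using ht
  have hld : ∀ t : ℝ, |t| ≤ 1 → LD (m + 1) A (t • e0) := fun t ht => hB.ld _ (hbox t ht)
  have hq0 : ¬ LD (m + 1) F (A 0) := by rw [hA0]; exact hq.1.1
  have hq1 : A 0 ∉ Gd F := by rw [hA0]; exact hq.1.2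
  -- the points of the open leaf are singular and not good
  have step1 : ∀ t : ℝ, |t| < 1 → ¬ LD (m + 1) F (A (t • e0)) ∧ A (t • e0) ∉ Gd F := by
    intro t ht
    by_cases ht0 : t = 0
    · rw [ht0, zero_smul]
      exact ⟨hq0, hq1⟩
    refine ⟨fun h => hq1 ?_, fun h => hq1 ?_⟩
    · refine prop_good hPROP m X F P A L b hF hB hcl hq0 (fun _ => 0) contMDiff_const
        HasCompactSupport.zero (fun y _ => c7 y) {x | ¬ LD (m + 1) F x}ᶜ hcl.isOpen_compl
        (fun y hy hy' => absurd hy hy') t ht0 ht (not_not.2 h)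
    · obtain ⟨V, h1, h2, h3, h4⟩ := h
      exact prop_good hPROP m X F P A L b hF hB hcl hq0 V h1 h2 h3 {x | Pos F V x} (c5 V h1)
        (fun y _ hy' => hy') t ht0 ht h4
  have step2 : ∀ t : ℝ, |t| ≤ 1 → ¬ LD (m + 1) F (A (t • e0)) ∧ A (t • e0) ∉ Gd F := by
    intro t ht
    have h1 : IsClosed ({x | ¬ LD (m + 1) F x} ∩ (Gd F)ᶜ) := hcl.inter hgo.isClosed_compl
    have h2 : Tendsto (fun s : ℝ => A ((s * t) • e0)) (𝓝[<] 1) (𝓝 (A (t • e0))) := by
      have h3 : ContinuousAt (fun s : ℝ => (s * t) • (e0 : E (m + 1))) 1 := by fun_prop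
      have h4 : ContinuousAt A ((1 * t) • (e0 : E (m + 1))) := by
        rw [one_mul]
        exact (hld t ht).continuousAt
      have h5 : ContinuousAt (fun s : ℝ => A ((s * t) • e0)) 1 :=
        ContinuousAt.comp (f := fun s : ℝ => (s * t) • (e0 : E (m + 1))) h4 h3
      have h6 := h5.tendsto
      simp only [one_mul] at h6
      exact h6.mono_left nhdsWithin_le_nhds
    have h3 : A (t • e0) ∈ {x | ¬ LD (m + 1) F x} ∩ (Gd F)ᶜ := by
      refine h1.mem_of_tendsto h2 ?_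
      have h4 : ∀ᶠ s : ℝ in 𝓝[<] 1, 0 < s ∧ s < 1 := by
        have := Ioo_mem_nhdsLT (show (0 : ℝ) < 1 from one_pos)
        filter_upwards [this] with s hs using hs
      filter_upwards [h4] with s hs
      have h5 : |s * t| < 1 := by
        rw [abs_mul, abs_of_pos hs.1]
        calc s * |t| ≤ s * 1 := mul_le_mul_of_nonneg_left ht hs.1.le
          _ < 1 := by linarith [hs.2]
      exact step1 _ h5
    exact h3
  have hjac : ∀ t : ℝ, |t| ≤ 1 → jac F A L (t • e0) = 0 := by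
    intro t ht
    obtain ⟨h1, -, -⟩ := hREG m X F A L (t • e0) hsm (hld t ht)
    by_contra h
    exact (step2 t ht).1 (h1.2 h)
  intro t ht
  obtain ⟨h1, h2⟩ := leaf_eq hBXJ hREG m X F P A L b hsm hB hjac t ht
  refine ⟨step2 t ht, ?_, fun v => ?_⟩
  · rw [h1, hA0, hq.2.1]
  · obtain ⟨B, hBt⟩ := dF_eq F hsm A L (t • e0) (hld t ht)
    have hld0 : LD (m + 1) A 0 := by
      have := hld 0 (by simp)
      rwa [zero_smul] at this
    obtain ⟨B0, hB0⟩ := dF_eq F hsm A L 0 hld0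
    have h3 : DF F (A (t • e0)) v = DF F (A 0) (B0 (B.symm v)) := by
      apply L.injective
      have h4 := h2 (B.symm v)
      rw [hBt, hB0, B.apply_symm_apply] at h4
      exact h4
    rw [h3, hA0]
    exact hq.2.2 _

end Pool.Agent.L7h13.NF
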