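import Pool.Agent.L7h20.NF.Stm3
import Pool.Agent.L7h13.NF.Leaf

/-!
# Project NF: leafy sets through the points of a set which is closed under propagation
-/

set_option autoImplicit false

open Set Filter Topology Metric Function
open scoped Manifold ContDiff

noncomputable section

namespace Pool.Agent.L7h13.NF

open Pool.Agent.Y522 Pool.Agent.L7h20.NF

theorem s_LEAF2 (hBOX : S_BOX) (hBXJ : S_BXJ) (hREG : S_REG) : S_LEAF2 := by
  intro m X _ _ _ _ F S x hF hScl hS hc hprop hxS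
  classical
  have hsm := hF.smooth
  have hx := (hS x hxS).1
  -- the derivative at `x` is not onto
  have hns : ¬ Surjective (DF F x) := by
    intro hs
    obtain ⟨A, L, z, hz, hco⟩ := hF.sign x
    obtain ⟨h1, -, -⟩ := hREG m X F A L z hsm hco.ld
    apply hx
    rw [← hz, h1]
    obtain ⟨B, hB⟩ := dF_eq F hsm A L z hco.ld
    have h2 : Surjective (dF F A L z) := by
      intro y
      obtain ⟨v, hv⟩ := hs (L.symm y)
      refine ⟨B.symm v, ?_⟩
      rw [hB, hz, B.apply_symm_apply, hv, L.apply_symm_apply]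
    have h3 : IsUnit ((dF F A L z : E (m + 1) →L[ℝ] E (m + 1)) : E (m + 1) →ₗ[ℝ] E (m + 1)) :=
      (LinearMap.isUnit_iff_range_eq_top _).2 (LinearMap.range_eq_top.2 h2)
    exact ((LinearMap.isUnit_iff_isUnit_det _).1 h3).ne_zero
  set W : Submodule ℝ (E (m + 1)) := LinearMap.range (DF F x).toLinearMap with hW
  have hWm : m ≤ Module.finrank ℝ W := (hS x hxS).2
  have hWt : W ≠ ⊤ := by
    intro h
    apply hns
    intro y
    have : y ∈ W := by rw [h]; trivial
    obtain ⟨v, hv⟩ := this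
    exact ⟨v, hv⟩
  obtain ⟨l, hl0, hl⟩ := Submodule.exists_le_ker_of_lt_top W (lt_top_iff_ne_top.2 hWt)
  obtain ⟨P, hP⟩ := Pool.Agent.Y170.NA.exists_proj W hWm
  have hkl : Module.finrank ℝ (LinearMap.ker l) ≤ m := by
    have h := LinearMap.finrank_range_add_finrank_ker l
    rw [LinearMap.range_eq_top.2 (LinearMap.surjective hl0), finrank_top, Module.finrank_self,
      finrank_euclideanSpace, Fintype.card_fin] at h
    omega
  have hWk : W = LinearMap.ker l := Submodule.eq_of_le_of_finrank_le hl (hkl.trans hWm)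
  have hrange : ∀ q ∈ S, (∀ v, l (DF F q v) = 0) → ∀ w ∈ W, ∃ v, DF F q v = w := by
    intro q hq hlq w hw
    have h1 : LinearMap.range (DF F q).toLinearMap ≤ LinearMap.ker l := by
      rintro _ ⟨v, rfl⟩
      exact hlq v
    have h2 : LinearMap.range (DF F q).toLinearMap = LinearMap.ker l :=
      Submodule.eq_of_le_of_finrank_le h1 (hkl.trans (hS q hq).2)
    rw [hWk, ← h2] at hw
    obtain ⟨v, hv⟩ := hw
    exact ⟨v, hv⟩
  set K : Set X := {q | q ∈ S ∧ F q = F x ∧ ∀ v, l (DF F q v) = 0} with hK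
  have hsub : ∀ q ∈ K, Sub P F q := by
    intro q hq
    refine sub_iff P F hsm q fun y => ?_
    obtain ⟨w, hw, hwy⟩ := hP y
    obtain ⟨v, hv⟩ := hrange q hq.1 hq.2.2 w hw
    exact ⟨v, by rw [hv, hwy]⟩
  have hcl2 : IsClosed {q | ∀ v, l (DF F q v) = 0} := by
    rw [← isOpen_compl_iff, isOpen_iff_mem_nhds]
    intro q hq
    have hq' : ¬ ∀ v, l (DF F q v) = 0 := hq
    push Not at hq'
    obtain ⟨v, hv⟩ := hq'
    obtain ⟨A, L, z, hz, hco⟩ := hF.sign q
    obtain ⟨B, hB⟩ := dF_eq F hsm A L z hco.ld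
    obtain ⟨-, -, h3⟩ := hREG m X F A L z hsm hco.ld
    have h4 : ContinuousAt (fun w => (LinearMap.toContinuousLinearMap l)
        (L.symm (dF F A L w (B.symm v)))) z := by
      have h5 : ContinuousAt (fun w => dF F A L w (B.symm v)) z := h3.clm_apply continuousAt_const
      exact (LinearMap.toContinuousLinearMap l).continuous.continuousAt.comp
        (L.symm.continuous.continuousAt.comp h5)
    have h5 : (LinearMap.toContinuousLinearMap l) (L.symm (dF F A L z (B.symm v))) ≠ 0 := by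
      rw [hB, L.symm_apply_apply, B.apply_symm_apply, hz]
      exact hv
    have h6 : {w | (LinearMap.toContinuousLinearMap l) (L.symm (dF F A L w (B.symm v))) ≠ 0 ∧
        LD (m + 1) A w} ∈ 𝓝 z := (h4.eventually_ne h5).and hco.ld.eventually
    have h7 := hco.ld.image_mem_nhds h6
    rw [hz] at h7
    filter_upwards [h7] with y hy
    obtain ⟨w, ⟨hw1, hw2⟩, rfl⟩ := hy
    obtain ⟨B', hB'⟩ := dF_eq F hsm A L w hw2
    intro hcon
    apply hw1
    rw [hB', L.symm_apply_apply]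
    exact hcon _
  have hKc : IsCompact K := by
    have h1 : K = {q | q ∈ S ∧ F q = F x} ∩ {q | ∀ v, l (DF F q v) = 0} := by
      ext q
      simp only [hK]
      constructor
      · rintro ⟨h1, h2, h3⟩
        exact ⟨⟨h1, h2⟩, h3⟩
      · rintro ⟨⟨h1, h2⟩, h3⟩
        exact ⟨h1, h2, h3⟩
    rw [h1]
    exact hc.inter_right hcl2
  refine ⟨P, K, ⟨hxS, rfl, fun v => hl ⟨v, rfl⟩⟩, ⟨hKc, ⟨P (F x), fun q hq => ?_⟩, ?_⟩, hsub⟩
  · rw [hq.2.1]
  intro q hq U hU
  obtain ⟨A, L, b, hA0, hB, hin⟩ := hBOX m X F hF P q (hsub q hq) U hU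
  refine ⟨A, L, b, hA0, hB, hin, ?_⟩
  have he0 : (e0 : E (m + 1)) 0 = 1 := rfl
  have htl0 : tl (e0 : E (m + 1)) = 0 := by simp [e0]
  have hbox : ∀ t : ℝ, |t| ≤ 1 → (t • e0 : E (m + 1)) ∈ box m 1 1 := by
    intro t ht
    refine ⟨?_, ?_⟩
    · rw [map_smul, htl0, smul_zero, norm_zero]
      exact zero_le_one
    · simpa [he0] using ht
  have hld : ∀ t : ℝ, |t| ≤ 1 → LD (m + 1) A (t • e0) := fun t ht => hB.ld _ (hbox t ht)
  have hq0 : A 0 ∈ S := by rw [hA0]; exact hq.1
  have step1 : ∀ t : ℝ, |t| < 1 → A (t • e0) ∈ S := hprop P A L b hB hq0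
  have step2 : ∀ t : ℝ, |t| ≤ 1 → A (t • e0) ∈ S := by
    intro t ht
    have h2 : Tendsto (fun s : ℝ => A ((s * t) • e0)) (𝓝[<] 1) (𝓝 (A (t • e0))) := by
      have h3 : ContinuousAt (fun s : ℝ => (s * t) • (e0 : E (m + 1))) 1 := by fun_prop
      have h4 : ContinuousAt A ((1 * t) • (e0 : E (m + 1))) := by
        rw [one_mul]
        exact (hld t ht).continuousAt
      have h5 : ContinuousAt (fun s : ℝ => A ((s * t) • e0)) 1 :=
        ContinuousAt.comp (f := fun s : ℝ => (s * t) • (e0 : E (m + 1))) h4 h3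
      have h6 := h5.tendsto
      simp only [one_mul] at h6
      exact h6.mono_left nhdsWithin_le_nhds
    refine hScl.mem_of_tendsto h2 ?_
    have h4 : ∀ᶠ s : ℝ in 𝓝[<] 1, 0 < s ∧ s < 1 := by
      have := Ioo_mem_nhdsLT (show (0 : ℝ) < 1 from one_pos)
      filter_upwards [this] with s hs using hs
    filter_upwards [h4] with s hs
    have h5 : |s * t| < 1 := by
      rw [abs_mul, abs_of_pos hs.1]
      calc s * |t| ≤ s * 1 := mul_le_mul_of_nonneg_left ht hs.1.le
        _ < 1 := by linarith [hs.2]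
    exact step1 _ h5
  have hjac : ∀ t : ℝ, |t| ≤ 1 → jac F A L (t • e0) = 0 := by
    intro t ht
    obtain ⟨h1, -, -⟩ := hREG m X F A L (t • e0) hsm (hld t ht)
    by_contra h
    exact (hS _ (step2 t ht)).1 (h1.2 h)
  intro t ht
  obtain ⟨h1, h2⟩ := leaf_eq hBXJ hREG m X F P A L b hsm hB hjac t ht
  refine ⟨step2 t ht, ?_, fun v => ?_⟩
  · rw [h1, hA0, hq.2.1]
  · obtain ⟨B, hBt⟩ := dF_eq F hsm A L (t • e0) (hld t ht)
    have hld0 : LD (m + 1) A 0 := by
      have := hld 0 (by simp)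
      rwa [zero_smul] at this
    obtain ⟨B0, hB0⟩ := dF_eq F hsm A L 0 hld0
    have h3 : DF F (A (t • e0)) v = DF F (A 0) (B0 (B.symm v)) := by
      apply L.injective
      have h4 := h2 (B.symm v)
      rw [hBt, hB0, B.apply_symm_apply] at h4
      exact h4
    rw [h3, hA0]
    exact hq.2.2 _

end Pool.Agent.L7h13.NF
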